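import Pool.Agent.Helper50.BL.Stmts
import Pool.Agent.Helper50.BL.Base

set_option autoImplicit false

namespace Pool.Agent.Helper50.BL

open Finset
open scoped Classical

theorem e1s_pt (κ t T Lam D z : ℝ) (l : ℤ) (ht : 1 ≤ t) (hT : 0 < T) (hL : 1 ≤ Lam) :
    (2 : ℝ) ^ l * E1c κ t T Lam D ((2 : ℝ) ^ l) z =
      (κ + 2) * (Real.sqrt 2 * ((2 : ℝ) ^ l * (if 8 * Lam / T * (2 : ℝ) ^ l ≤ z then
        Real.sqrt (z / (8 * Lam / T * (2 : ℝ) ^ l)) else 0))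
      + (2 : ℝ) ^ l * (if 1 / (8 * t * T) * (2 : ℝ) ^ l ≤ z ∧ z < 8 * Lam / T * (2 : ℝ) ^ l then
        z / (8 * Lam / T * (2 : ℝ) ^ l) else 0))
      + epsC κ t Lam D * ((2 : ℝ) ^ l * (if 1 / (8 * t * T) * (2 : ℝ) ^ l ≤ z then (1 : ℝ) else 0)) := by
  have h2 : (0 : ℝ) < (2 : ℝ) ^ l := by positivity
  have e1' : (2 : ℝ) ^ l / (8 * t * T) = 1 / (8 * t * T) * (2 : ℝ) ^ l := by ring
  have e2' : 8 * Lam * (2 : ℝ) ^ l / T = 8 * Lam / T * (2 : ℝ) ^ l := by ring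
  have hba : 1 / (8 * t * T) * (2 : ℝ) ^ l ≤ 8 * Lam / T * (2 : ℝ) ^ l := by
    apply mul_le_mul_of_nonneg_right _ h2.le
    rw [div_le_div_iff₀ (by positivity) hT]
    nlinarith [mul_pos hT (show (0 : ℝ) < Lam by linarith), mul_pos (show (0 : ℝ) < t by linarith) hT]
  unfold E1c e1
  rw [e1', e2']
  generalize hb : 1 / (8 * t * T) * (2 : ℝ) ^ l = b at hba ⊢
  generalize ha : 8 * Lam / T * (2 : ℝ) ^ l = a at hba ⊢
  by_cases h1 : z < b
  · have h3 : ¬ b ≤ z := not_le.2 h1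
    have h4 : ¬ a ≤ z := not_le.2 (h1.trans_le hba)
    rw [if_pos h1, if_neg h4, if_neg (fun h => h3 h.1), if_neg h3]
    ring
  · have h3 : b ≤ z := not_lt.1 h1
    rw [if_neg h1, if_neg h1, if_pos h3]
    by_cases h5 : z < a
    · have h4 : ¬ a ≤ z := not_le.2 h5
      rw [if_pos h5, if_neg h4, if_pos ⟨h3, h5⟩]
      ring
    · have h4 : a ≤ z := not_lt.1 h5
      rw [if_neg h5, if_pos h4, if_neg (fun h => h5 h.2)]
      have h6 : Real.sqrt (2 * z / a) = Real.sqrt 2 * Real.sqrt (z / a) := by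
        rw [← Real.sqrt_mul (by norm_num), mul_div_assoc]
      rw [h6]
      ring

theorem e1s_eps {κ t Lam D : ℝ} (hκ : 0 ≤ κ) (ht : 1 ≤ t) (hD : 0 ≤ D) : 0 ≤ epsC κ t Lam D := by
  unfold epsC
  have : 0 ≤ t := by linarith
  positivity

theorem st_E1S (h1 : ST_D1) (h2 : ST_D2) (h3 : ST_D3) : ST_E1S := by
  intro κ t T Lam D z Nn G hκ ht hT hL hD hz hN
  have hL0 : 0 < Lam := by linarith
  have ht0 : 0 < t := by linarith
  have ha : 0 < 8 * Lam / T := by positivity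
  have hb : 0 < 1 / (8 * t * T) := by positivity
  have hba : 1 / (8 * t * T) ≤ 8 * Lam / T := by
    rw [div_le_div_iff₀ (by positivity) hT]
    nlinarith [mul_pos hT hL0, mul_pos ht0 hT]
  have hab : 8 * Lam / T ≤ 2 ^ Nn * (1 / (8 * t * T)) := by
    rw [mul_one_div, div_le_div_iff₀ hT (by positivity)]
    nlinarith [mul_le_mul_of_nonneg_right hN hT.le]
  have k1 := h1 (8 * Lam / T) z G ha hz
  have k2 := h2 (1 / (8 * t * T)) z G hb hz
  have k3 := h3 (8 * Lam / T) (1 / (8 * t * T)) z Nn G hb hba hab hz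
  have hs2 : Real.sqrt 2 ≤ 3 / 2 := by
    rw [Real.sqrt_le_left (by norm_num)]
    norm_num
  have hs0 : 0 ≤ Real.sqrt 2 := Real.sqrt_nonneg 2
  rw [Finset.sum_congr rfl (fun l _ => e1s_pt κ t T Lam D z l ht hT hL), Finset.sum_add_distrib,
    ← Finset.mul_sum, ← Finset.mul_sum, Finset.sum_add_distrib, ← Finset.mul_sum]
  have hza : 0 ≤ z / (8 * Lam / T) := by positivity
  have m1 : Real.sqrt 2 * ∑ l ∈ G, (2 : ℝ) ^ l * (if 8 * Lam / T * (2 : ℝ) ^ l ≤ z then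
      Real.sqrt (z / (8 * Lam / T * (2 : ℝ) ^ l)) else 0) ≤ 6 * (z / (8 * Lam / T)) := by
    calc _ ≤ Real.sqrt 2 * (4 * z / (8 * Lam / T)) := mul_le_mul_of_nonneg_left k1 hs0
      _ = Real.sqrt 2 * 4 * (z / (8 * Lam / T)) := by ring
      _ ≤ 6 * (z / (8 * Lam / T)) := by
        apply mul_le_mul_of_nonneg_right _ hza
        linarith
  have m2 := mul_le_mul_of_nonneg_left k2 (e1s_eps (Lam := Lam) hκ ht hD)
  have m3 := mul_le_mul_of_nonneg_left (add_le_add m1 k3) (show 0 ≤ κ + 2 by linarith)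
  refine (add_le_add m3 m2).trans (le_of_eq ?_)
  unfold Rc
  field_simp
  ring

end Pool.Agent.Helper50.BL
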